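import Mathlib
import Pool.Agent.Q167.VC.Stm

/-!
Project VC: domination for `p = 2` (DOM2).
-/

set_option autoImplicit false

namespace Pool.Agent.Q277.VC

open Pool.Agent.Q167.VC (PP S_dom2)

/-- the real inequality -/
lemma dom2_real (x y p q : ℝ) (hx0 : 0 ≤ x) (hx1 : x < 1) (hxy : x ^ 2 + y ^ 2 = 1)
    (hy : y < 0) (hre : p ^ 2 - q ^ 2 - p - 1 = x * (p - 1) - y * q)
    (him : 2 * p * q - q = x * q + y * (p - 1)) (hp : 1 + x - p < 0) :
    (2 * x - p) ^ 2 + q ^ 2 < (x - 1 + p) ^ 2 + (q - y) ^ 2 ∨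
      (2 * x - p) ^ 2 + q ^ 2 < (2 - 2 * x) ^ 2 := by
  by_cases h3 : 1 / 3 ≤ x
  · left
    have hw : 0 < 2 * p - 1 - x := by linarith
    have h1 : (y - 2 * q) * (2 * p - 1 - x) = y * (1 - x) := by linear_combination -2 * him
    have h2 : 0 < y * (y - 2 * q) := by
      have h4 : 0 < (y * (y - 2 * q)) * (2 * p - 1 - x) := by
        have e : (y * (y - 2 * q)) * (2 * p - 1 - x) = y ^ 2 * (1 - x) := by
          linear_combination y * h1
        rw [e]
        have : 0 < y ^ 2 := by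
          have := hy.ne
          positivity
        exact mul_pos this (by linarith)
      exact pos_of_mul_pos_left h4 hw.le
    have h5 : 0 ≤ (3 * x - 1) * (2 * p - x - 1) := mul_nonneg (by linarith) (by linarith)
    have e : (x - 1 + p) ^ 2 + (q - y) ^ 2 - ((2 * x - p) ^ 2 + q ^ 2) =
        (3 * x - 1) * (2 * p - x - 1) + y * (y - 2 * q) := by ring
    linarith
  · right
    push Not at h3
    by_contra hcon
    push Not at hcon
    set M : ℝ := (2 * x - p) ^ 2 + q ^ 2 with hM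
    set M1 : ℝ := (x - 1 + p) ^ 2 + (q - y) ^ 2 with hM1
    have hM1n : 0 ≤ M1 := by positivity
    have e1 : (2 * x - p) * (x - 1 + p) + q * (q - y) = 2 * x ^ 2 - x - 1 := by
      linear_combination -hre
    have e2 : (2 * x - p) * (q - y) - q * (x - 1 + p) = y - 2 * x * y := by
      linear_combination -him
    have hprod : M * M1 = 2 - 2 * x := by
      have e3 : M * M1 = ((2 * x - p) * (x - 1 + p) + q * (q - y)) ^ 2 +
          ((2 * x - p) * (q - y) - q * (x - 1 + p)) ^ 2 := by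
        rw [hM, hM1]
        ring
      rw [e3, e1, e2]
      have hy2 : y ^ 2 = 1 - x ^ 2 := by linarith
      have e4 : (y - 2 * x * y) ^ 2 = y ^ 2 * (1 - 2 * x) ^ 2 := by ring
      rw [e4, hy2]
      ring
    set D : ℝ := (2 * p - 1 - x) ^ 2 + (2 * q - y) ^ 2 with hD
    have hD0 : 0 ≤ D := by positivity
    have hsum : 2 * (M + M1) = 8 * x ^ 2 - 6 * x + 2 + D := by
      rw [hM, hM1, hD]
      linear_combination hxy
    have hD2 : D ^ 2 = 4 * (5 * x ^ 2 - 6 * x + 5) := by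
      have f1 : (2 * p - 1 - x) ^ 2 - (2 * q - y) ^ 2 = 2 * x ^ 2 - 2 * x + 4 := by
        linear_combination 4 * hre - hxy
      have f2 : 2 * (2 * p - 1 - x) * (2 * q - y) = 2 * x * y - 2 * y := by
        linear_combination 4 * him
      have e3 : D ^ 2 = ((2 * p - 1 - x) ^ 2 - (2 * q - y) ^ 2) ^ 2 +
          (2 * (2 * p - 1 - x) * (2 * q - y)) ^ 2 := by
        rw [hD]
        ring
      rw [e3, f1, f2]
      have hy2 : y ^ 2 = 1 - x ^ 2 := by linarith
      have e4 : (2 * x * y - 2 * y) ^ 2 = 4 * y ^ 2 * (1 - x) ^ 2 := by ring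
      rw [e4, hy2]
      ring
    have hDle : D ≤ 2 * (2.2361 - 1.05 * x) := by
      apply abs_le_of_sq_le_sq' _ (by linarith) |>.2
      rw [hD2]
      nlinarith [mul_nonneg hx0 (show 0 ≤ 1 / 3 - x by linarith)]
    have hS : M + M1 ≤ 4 * x ^ 2 - 4.05 * x + 3.2361 := by linarith
    have hL0 : 0 < 1 - x := by linarith
    -- the other value is smaller
    have hM1L : M1 < (2 - 2 * x) ^ 2 := by
      by_contra hc
      push Not at hc
      have h1 : (2 - 2 * x) ^ 2 * (2 - 2 * x) ^ 2 ≤ M * M1 :=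
        mul_le_mul hcon hc (by positivity) (by positivity)
      rw [hprod] at h1
      have h2 : (2 : ℝ) / 3 ≤ 1 - x := by linarith
      have h4 : ((2 : ℝ) / 3) ^ 3 ≤ (1 - x) ^ 3 := by gcongr
      have h5 : (2 - 2 * x) ^ 2 * (2 - 2 * x) ^ 2 = (1 - x) * (16 * (1 - x) ^ 3) := by ring
      rw [h5] at h1
      have h6 : (1 - x) * 2 < (1 - x) * (16 * (1 - x) ^ 3) := by
        apply mul_lt_mul_of_pos_left _ hL0
        linarith
      linarith
    have h6 : ((2 - 2 * x) ^ 2 - M) * ((2 - 2 * x) ^ 2 - M1) ≤ 0 :=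
      mul_nonpos_of_nonpos_of_nonneg (by linarith) (by linarith)
    have h7 : ((2 - 2 * x) ^ 2 - M) * ((2 - 2 * x) ^ 2 - M1) =
        (2 - 2 * x) ^ 2 * ((2 - 2 * x) ^ 2 - (M + M1)) + (2 - 2 * x) := by
      linear_combination hprod
    rw [h7] at h6
    have h8 : (2 - 2 * x) ^ 2 * (0.7639 - 3.95 * x) ≤
        (2 - 2 * x) ^ 2 * ((2 - 2 * x) ^ 2 - (M + M1)) := by
      apply mul_le_mul_of_nonneg_left _ (by positivity)
      linarith
    have h9 : (2 - 2 * x) ^ 2 * (0.7639 - 3.95 * x) + (2 - 2 * x) =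
        2 * (1 - x) * (2.5278 - 9.4278 * x + 7.9 * x ^ 2) := by ring
    have h10 : 0 < 2.5278 - 9.4278 * x + 7.9 * x ^ 2 := by
      nlinarith [mul_nonneg (show 0 ≤ 1 / 3 - x by linarith) (show 0 ≤ 1 / 3 - x by linarith)]
    have h11 : 0 < 2 * (1 - x) * (2.5278 - 9.4278 * x + 7.9 * x ^ 2) := by positivity
    linarith

theorem dom2 : S_dom2 := by
  intro φ hφ1 hφ2 h₁ h h1eq heq h1re hre
  set x : ℝ := Real.cos φ with hx
  set y : ℝ := Real.sin φ with hy
  have hz : Complex.exp (φ * Complex.I) = (x : ℂ) + y * Complex.I := by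
    rw [Complex.exp_mul_I, hx, hy, Complex.ofReal_cos, Complex.ofReal_sin]
  have hpi := Real.pi_pos
  have hx0 : 0 ≤ x := Real.cos_nonneg_of_neg_pi_div_two_le_of_le hφ1 (by linarith)
  have hx1 : x < 1 := by
    rw [hx, ← Real.cos_neg φ, ← Real.cos_zero]
    apply Real.cos_lt_cos_of_nonneg_of_le_pi le_rfl
    · linarith
    · linarith
  have hyneg : y < 0 := Real.sin_neg_of_neg_of_neg_pi_lt hφ2 (by linarith)
  have hxy : x ^ 2 + y ^ 2 = 1 := by
    rw [hx, hy]
    exact Real.cos_sq_add_sin_sq φ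
  simp only [PP] at h1eq heq
  rw [hz] at h1eq heq
  have hne : h - h₁ ≠ 0 := by
    intro h0
    have h2 : h = h₁ := sub_eq_zero.1 h0
    rw [h2] at hre
    linarith
  have hsum : h + h₁ - 1 - ((x : ℂ) + y * Complex.I) = 0 := by
    have h2 : (h - h₁) * (h + h₁ - 1 - ((x : ℂ) + y * Complex.I)) = 0 := by
      linear_combination heq - h1eq
    exact (mul_eq_zero.1 h2).resolve_left hne
  have r1 := congrArg Complex.re heq
  have r2 := congrArg Complex.im heq
  have r3 := congrArg Complex.re hsum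
  have r4 := congrArg Complex.im hsum
  simp at r1 r2 r3 r4
  set p : ℝ := h.re with hp
  set q : ℝ := h.im with hq
  have hh1 : h₁.re = 1 + x - p := by linarith
  have hh2 : h₁.im = y - q := by linarith
  have key := dom2_real x y p q hx0 hx1 hxy hyneg (by linear_combination r1) (by linear_combination r2)
    (by linarith)
  have n1 : ‖(2 * (x : ℂ)) - h‖ ^ 2 = (2 * x - p) ^ 2 + q ^ 2 := by
    rw [Complex.sq_norm, Complex.normSq_apply]
    simp [← hp, ← hq]
    ring
  have n2 : ‖(2 * (x : ℂ)) - h₁‖ ^ 2 = (x - 1 + p) ^ 2 + (q - y) ^ 2 := by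
    rw [Complex.sq_norm, Complex.normSq_apply]
    simp [hh1, hh2]
    ring
  rw [lt_max_iff]
  rcases key with key | key
  · right
    rw [← n1, ← n2] at key
    exact lt_of_pow_lt_pow_left₀ 2 (norm_nonneg _) key
  · left
    rw [← n1] at key
    exact lt_of_pow_lt_pow_left₀ 2 (by linarith) key

end Pool.Agent.Q277.VC
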