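import Mathlib
import Pool.Agent.Q167.VC.Stm

/-!
Project VC: uniform Riemann sums (RS1).
-/

set_option autoImplicit false

open Finset Filter Topology MeasureTheory

namespace Pool.Agent.Q277.VC

open Pool.Agent.Q167.VC (ph S_rs1)

lemma ph_succ (N m : ℕ) : ph N (m + 1) = ph N m + 2 * Real.pi / N := by
  unfold ph
  push_cast
  ring

lemma ph_mono (N m k : ℕ) (h : m ≤ k) : ph N m ≤ ph N k := by
  unfold ph
  have h1 : (m : ℝ) ≤ k := by exact_mod_cast h
  have h2 : 2 * Real.pi * ((m : ℝ) + 1 / 2) / N ≤ 2 * Real.pi * ((k : ℝ) + 1 / 2) / N := by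
    gcongr
  linarith

lemma ph_last (N m : ℕ) (h : m + 1 = N) : ph N m = -(Real.pi / N) := by
  unfold ph
  have hN : (N : ℝ) ≠ 0 := by
    have : 0 < N := by omega
    positivity
  have h1 : (m : ℝ) = N - 1 := by
    rw [← h]
    push_cast
    ring
  rw [h1]
  field_simp
  ring

lemma ph_neg (N m : ℕ) (h : m < N) : ph N m < 0 := by
  have h1 : ph N m ≤ ph N (N - 1) := ph_mono N m (N - 1) (by omega)
  rw [ph_last N (N - 1) (by omega)] at h1
  have h2 : 0 < Real.pi / N := by
    have : (0 : ℝ) < N := by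
      have : 0 < N := by omega
      exact_mod_cast this
    exact div_pos Real.pi_pos this
  linarith

theorem rs1 : S_rs1 := by
  intro F hF ε hε
  have hcomp : IsCompact (Set.Icc (-(Real.pi / 2)) (0 : ℝ)) := isCompact_Icc
  have huc := hcomp.uniformContinuousOn_of_continuous hF
  rw [Metric.uniformContinuousOn_iff] at huc
  obtain ⟨δ, hδ, hδ2⟩ := huc (ε / 2) (by linarith)
  obtain ⟨B, hB⟩ := hcomp.exists_bound_of_continuousOn hF
  obtain ⟨N1, hN1⟩ := exists_nat_gt (2 * Real.pi / δ)
  obtain ⟨N2, hN2⟩ := exists_nat_gt (|B| / ε)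
  refine ⟨max (max N1 N2) 1, ?_⟩
  intro N hN n hn hph
  have hN1' : N1 ≤ N := le_trans (le_trans (le_max_left _ _) (le_max_left _ _)) hN
  have hN2' : N2 ≤ N := le_trans (le_trans (le_max_right _ _) (le_max_left _ _)) hN
  have hNpos : 0 < N := lt_of_lt_of_le one_pos (le_trans (le_max_right _ _) hN)
  have hN0 : (0 : ℝ) < N := by exact_mod_cast hNpos
  have hpi := Real.pi_pos
  have hstep : 2 * Real.pi / N < δ := by
    have h1 : 2 * Real.pi / δ < N := lt_of_lt_of_le hN1 (by exact_mod_cast hN1')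
    rw [div_lt_iff₀ hδ] at h1
    rw [div_lt_iff₀ hN0]
    linarith
  have hint : ∀ a b : ℝ, -(Real.pi / 2) ≤ a → a ≤ 0 → -(Real.pi / 2) ≤ b → b ≤ 0 →
      IntervalIntegrable F volume a b := by
    intro a b ha ha' hb hb'
    apply ContinuousOn.intervalIntegrable
    apply hF.mono
    intro x hx
    rw [Set.mem_uIcc] at hx
    rw [Set.mem_Icc]
    rcases hx with ⟨h1, h2⟩ | ⟨h1, h2⟩
    · exact ⟨by linarith, by linarith⟩
    · exact ⟨by linarith, by linarith⟩
  have key : ∀ m : ℕ, n ≤ m → m < N →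
      |(1 / (N : ℝ)) * ∑ j ∈ Ioc n m, F (ph N j)
        - (1 / (2 * Real.pi)) * ∫ φ in (ph N n)..(ph N m), F φ| ≤ (ε / 2) * (((m : ℝ) - n) / N) := by
    intro m hm
    induction m, hm using Nat.le_induction with
    | base =>
      intro _
      simp
    | succ m hm ih =>
      intro hmN
      have ih' := ih (by omega)
      rw [Finset.sum_Ioc_succ_top hm]
      have ha : -(Real.pi / 2) ≤ ph N m := le_trans hph (ph_mono N n m hm)
      have ha' : ph N m ≤ 0 := (ph_neg N m (by omega)).le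
      have hb : -(Real.pi / 2) ≤ ph N (m + 1) := le_trans hph (ph_mono N n (m + 1) (by omega))
      have hb' : ph N (m + 1) ≤ 0 := (ph_neg N (m + 1) hmN).le
      have hn' : ph N n ≤ 0 := (ph_neg N n hn).le
      have hab : ph N m ≤ ph N (m + 1) := ph_mono N m (m + 1) (by omega)
      rw [← intervalIntegral.integral_add_adjacent_intervals (hint _ _ hph hn' ha ha')
        (hint _ _ ha ha' hb hb')]
      have h1 : (1 / (N : ℝ)) * F (ph N (m + 1)) =
          (1 / (2 * Real.pi)) * ∫ _φ in (ph N m)..(ph N (m + 1)), F (ph N (m + 1)) := by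
        rw [intervalIntegral.integral_const, ph_succ]
        rw [smul_eq_mul]
        field_simp
        ring
      have h2 : |∫ φ in (ph N m)..(ph N (m + 1)), (F (ph N (m + 1)) - F φ)| ≤
          (ε / 2) * |ph N (m + 1) - ph N m| := by
        have h3 := intervalIntegral.norm_integral_le_of_norm_le_const
          (a := ph N m) (b := ph N (m + 1)) (C := ε / 2)
          (f := fun φ => F (ph N (m + 1)) - F φ) (by
            intro x hx
            rw [Set.uIoc_of_le hab] at hx
            have hx1 : x ∈ Set.Icc (-(Real.pi / 2)) (0 : ℝ) :=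
              ⟨by linarith [hx.1], by linarith [hx.2]⟩
            have h4 := hδ2 (ph N (m + 1)) ⟨hb, hb'⟩ x hx1 (by
              rw [Real.dist_eq, abs_lt]
              rw [ph_succ] at hx ⊢
              constructor
              · linarith [hx.2]
              · linarith [hx.1])
            rw [Real.dist_eq] at h4
            rw [Real.norm_eq_abs]
            exact h4.le)
        rw [Real.norm_eq_abs] at h3
        exact h3
      have h5 : ∫ φ in (ph N m)..(ph N (m + 1)), (F (ph N (m + 1)) - F φ) =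
          (∫ _φ in (ph N m)..(ph N (m + 1)), F (ph N (m + 1))) -
            ∫ φ in (ph N m)..(ph N (m + 1)), F φ :=
        intervalIntegral.integral_sub intervalIntegrable_const (hint _ _ ha ha' hb hb')
      have h6 : |ph N (m + 1) - ph N m| = 2 * Real.pi / N := by
        rw [ph_succ, add_sub_cancel_left, abs_of_nonneg (by positivity)]
      rw [h6] at h2
      have e1 : (1 / (N : ℝ)) * (∑ j ∈ Ioc n m, F (ph N j) + F (ph N (m + 1))) -
          (1 / (2 * Real.pi)) * ((∫ φ in (ph N n)..(ph N m), F φ) +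
            ∫ φ in (ph N m)..(ph N (m + 1)), F φ) =
          ((1 / (N : ℝ)) * ∑ j ∈ Ioc n m, F (ph N j)
            - (1 / (2 * Real.pi)) * ∫ φ in (ph N n)..(ph N m), F φ) +
          (1 / (2 * Real.pi)) * ∫ φ in (ph N m)..(ph N (m + 1)), (F (ph N (m + 1)) - F φ) := by
        rw [h5]
        linear_combination h1
      rw [e1]
      refine (abs_add_le _ _).trans ?_
      rw [abs_mul (1 / (2 * Real.pi)), abs_of_pos (show (0 : ℝ) < 1 / (2 * Real.pi) by positivity)]
      have h7 : 1 / (2 * Real.pi) * |∫ φ in (ph N m)..(ph N (m + 1)), (F (ph N (m + 1)) - F φ)| ≤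
          1 / (2 * Real.pi) * ((ε / 2) * (2 * Real.pi / N)) :=
        mul_le_mul_of_nonneg_left h2 (by positivity)
      have e2 : 1 / (2 * Real.pi) * ((ε / 2) * (2 * Real.pi / N)) = (ε / 2) * (1 / N) := by
        field_simp
      rw [e2] at h7
      have e3 : (ε / 2) * ((((m + 1 : ℕ) : ℝ) - n) / N) =
          (ε / 2) * (((m : ℝ) - n) / N) + (ε / 2) * (1 / N) := by
        push_cast
        ring
      rw [e3]
      linarith
  have hlast : N - 1 < N := by omega
  have k1 := key (N - 1) (by omega) hlast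
  have k2 : (ε / 2) * ((((N - 1 : ℕ) : ℝ) - n) / N) ≤ ε / 2 := by
    have h1 : (((N - 1 : ℕ) : ℝ) - n) / N ≤ 1 := by
      rw [div_le_one hN0]
      have h2 : ((N - 1 : ℕ) : ℝ) ≤ N := by exact_mod_cast (by omega : N - 1 ≤ N)
      have h3 : (0 : ℝ) ≤ n := Nat.cast_nonneg _
      linarith
    calc (ε / 2) * ((((N - 1 : ℕ) : ℝ) - n) / N) ≤ (ε / 2) * 1 :=
          mul_le_mul_of_nonneg_left h1 (by linarith)
      _ = ε / 2 := mul_one _
  have ha : -(Real.pi / 2) ≤ ph N (N - 1) := le_trans hph (ph_mono N n (N - 1) (by omega))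
  have ha' : ph N (N - 1) ≤ 0 := (ph_neg N (N - 1) hlast).le
  have hn' : ph N n ≤ 0 := (ph_neg N n hn).le
  have hz : -(Real.pi / 2) ≤ (0 : ℝ) := by linarith
  have k3 : |∫ φ in (ph N (N - 1))..0, F φ| ≤ |B| * (Real.pi / N) := by
    have h3 := intervalIntegral.norm_integral_le_of_norm_le_const
      (a := ph N (N - 1)) (b := 0) (C := |B|) (f := F) (by
        intro x hx
        rw [Set.uIoc_of_le ha'] at hx
        exact (hB x ⟨by linarith [hx.1], hx.2⟩).trans (le_abs_self B))
    rw [Real.norm_eq_abs, ph_last N (N - 1) (by omega)] at h3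
    rw [zero_sub, neg_neg, abs_of_nonneg (show 0 ≤ Real.pi / (N : ℝ) by positivity)] at h3
    rw [ph_last N (N - 1) (by omega)]
    exact h3
  rw [← intervalIntegral.integral_add_adjacent_intervals (hint _ _ hph hn' ha ha')
    (hint _ _ ha ha' hz le_rfl)]
  have e4 : (1 / (N : ℝ)) * ∑ j ∈ Ioc n (N - 1), F (ph N j) -
      (1 / (2 * Real.pi)) * ((∫ φ in (ph N n)..(ph N (N - 1)), F φ) +
        ∫ φ in (ph N (N - 1))..0, F φ) =
      ((1 / (N : ℝ)) * ∑ j ∈ Ioc n (N - 1), F (ph N j) -
      (1 / (2 * Real.pi)) * ∫ φ in (ph N n)..(ph N (N - 1)), F φ) +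
      -((1 / (2 * Real.pi)) * ∫ φ in (ph N (N - 1))..0, F φ) := by ring
  rw [e4]
  refine (abs_add_le _ _).trans ?_
  rw [abs_neg, abs_mul (1 / (2 * Real.pi)),
    abs_of_pos (show (0 : ℝ) < 1 / (2 * Real.pi) by positivity)]
  have k4 : 1 / (2 * Real.pi) * |∫ φ in (ph N (N - 1))..0, F φ| ≤
      1 / (2 * Real.pi) * (|B| * (Real.pi / N)) := mul_le_mul_of_nonneg_left k3 (by positivity)
  have e5 : 1 / (2 * Real.pi) * (|B| * (Real.pi / N)) = |B| / N / 2 := by
    field_simp
  have k5 : |B| / N ≤ ε := by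
    have h1 : |B| / ε < N := lt_of_lt_of_le hN2 (by exact_mod_cast hN2')
    rw [div_lt_iff₀ hε] at h1
    rw [div_le_iff₀ hN0]
    linarith
  rw [e5] at k4
  linarith

end Pool.Agent.Q277.VC
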