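import Mathlib
import Pool.Agent.Q167.VC.Stm

/-!
Project VC: Riemann sums of the logarithmic singularity (RS2).
-/

set_option autoImplicit false

open Finset Filter Topology MeasureTheory

namespace Pool.Agent.Q277.VC

open Pool.Agent.Q167.VC (ph rt S_rs2)

/-- the function `log (2 - 2 cos φ) / 2` -/
noncomputable def G (φ : ℝ) : ℝ := Real.log (2 - 2 * Real.cos φ) / 2

/-- the points `2 π j / N - 2 π` -/
noncomputable def th (N j : ℕ) : ℝ := 2 * Real.pi * j / N - 2 * Real.pi

lemma g_int (a b : ℝ) : IntervalIntegrable G volume a b := by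
  have h : MeromorphicOn (fun φ : ℝ => 2 - 2 * Real.cos φ) (Set.uIcc a b) := by
    intro x _
    have : AnalyticAt ℝ (fun φ : ℝ => 2 - 2 * Real.cos φ) x := by fun_prop
    exact this.meromorphicAt
  have h2 := h.intervalIntegrable_log
  exact h2.div_const 2

lemma g_anti {x y : ℝ} (hx : -Real.pi ≤ x) (hxy : x ≤ y) (hy : y < 0) : G y ≤ G x := by
  unfold G
  have h1 : Real.cos x ≤ Real.cos y := by
    rw [← Real.cos_neg x, ← Real.cos_neg y]
    apply Real.cos_le_cos_of_nonneg_of_le_pi
    · linarith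
    · linarith
    · linarith
  have h2 : Real.cos y < 1 := by
    rw [← Real.cos_neg y, ← Real.cos_zero]
    apply Real.cos_lt_cos_of_nonneg_of_le_pi le_rfl
    · linarith
    · linarith
  have h3 := Real.log_le_log (x := 2 - 2 * Real.cos y) (y := 2 - 2 * Real.cos x)
    (by linarith) (by linarith)
  linarith

lemma th_succ (N j : ℕ) : th N (j + 1) = th N j + 2 * Real.pi / N := by
  unfold th
  push_cast
  ring

lemma th_mono (N m k : ℕ) (h : m ≤ k) : th N m ≤ th N k := by
  unfold th
  have h1 : (m : ℝ) ≤ k := by exact_mod_cast h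
  have h2 : 2 * Real.pi * (m : ℝ) / N ≤ 2 * Real.pi * (k : ℝ) / N := by
    gcongr
  linarith

lemma th_N (N : ℕ) (hN : 0 < N) : th N N = 0 := by
  unfold th
  have : (N : ℝ) ≠ 0 := by positivity
  field_simp
  ring

lemma th_neg (N j : ℕ) (h : j < N) : th N j < 0 := by
  have hN : (0 : ℝ) < N := by
    have : 0 < N := by omega
    exact_mod_cast this
  have h1 := th_mono N (j + 1) N (by omega)
  rw [th_N N (by omega), th_succ] at h1
  have h2 : 0 < 2 * Real.pi / N := div_pos (by linarith [Real.pi_pos]) hN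
  linarith

lemma ph_eq (N j : ℕ) : ph N j = th N j + Real.pi / N := by
  unfold ph th
  ring

lemma upper (N n : ℕ) (hN : 0 < N) (hn : -Real.pi ≤ th N n) (m : ℕ) (hm : n ≤ m) (hmN : m < N) :
    (2 * Real.pi / N) * ∑ j ∈ Ioc n m, G (th N j) ≤ ∫ φ in (th N n)..(th N m), G φ := by
  induction m, hm using Nat.le_induction with
  | base => simp
  | succ m hm ih =>
    have ih' := ih (by omega)
    rw [Finset.sum_Ioc_succ_top hm, mul_add,
      ← intervalIntegral.integral_add_adjacent_intervals (g_int (th N n) (th N m))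
        (g_int (th N m) (th N (m + 1)))]
    have hab : th N m ≤ th N (m + 1) := th_mono N m (m + 1) (by omega)
    have h1 : ∫ _φ in (th N m)..(th N (m + 1)), G (th N (m + 1)) ≤
        ∫ φ in (th N m)..(th N (m + 1)), G φ := by
      apply intervalIntegral.integral_mono_on_of_le_Ioo hab intervalIntegrable_const (g_int _ _)
      intro x hx
      exact g_anti (by linarith [hx.1, th_mono N n m hm]) hx.2.le (th_neg N (m + 1) hmN)
    rw [intervalIntegral.integral_const, th_succ, add_sub_cancel_left, smul_eq_mul,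
      ← th_succ] at h1
    linarith

lemma lower (N n : ℕ) (hN : 0 < N) (hn : -Real.pi ≤ th N n) (m : ℕ) (hm : n ≤ m) (hmN : m < N) :
    ∫ φ in (th N (n + 1))..(th N (m + 1)), G φ ≤
      (2 * Real.pi / N) * ∑ j ∈ Ioc n m, G (th N j) := by
  induction m, hm using Nat.le_induction with
  | base => simp
  | succ m hm ih =>
    have ih' := ih (by omega)
    rw [Finset.sum_Ioc_succ_top hm, mul_add,
      ← intervalIntegral.integral_add_adjacent_intervals (g_int (th N (n + 1)) (th N (m + 1)))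
        (g_int (th N (m + 1)) (th N (m + 1 + 1)))]
    have hab : th N (m + 1) ≤ th N (m + 1 + 1) := th_mono N _ _ (by omega)
    have hle : th N (m + 1 + 1) ≤ 0 := by
      rw [← th_N N hN]
      exact th_mono N _ _ (by omega)
    have h1 : ∫ φ in (th N (m + 1))..(th N (m + 1 + 1)), G φ ≤
        ∫ _φ in (th N (m + 1))..(th N (m + 1 + 1)), G (th N (m + 1)) := by
      apply intervalIntegral.integral_mono_on_of_le_Ioo hab (g_int _ _) intervalIntegrable_const
      intro x hx
      exact g_anti (by linarith [th_mono N n (m + 1) (by omega)]) hx.1.le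
        (by linarith [hx.2])
    rw [intervalIntegral.integral_const, th_succ N (m + 1), add_sub_cancel_left,
      smul_eq_mul, ← th_succ N (m + 1)] at h1
    linarith

/-- small integrals over short intervals -/
lemma short (ε : ℝ) (hε : 0 < ε) : ∃ δ : ℝ, 0 < δ ∧ ∀ u v : ℝ, -Real.pi ≤ u → u ≤ 0 →
    -Real.pi ≤ v → v ≤ 0 → |u - v| < δ → |∫ φ in u..v, G φ| ≤ ε := by
  have hc : ContinuousOn (fun x => ∫ φ in (-Real.pi)..x, G φ) (Set.uIcc (-Real.pi) 0) := by
    apply intervalIntegral.continuousOn_primitive_interval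
    have := g_int (-Real.pi) 0
    rw [intervalIntegrable_iff'] at this
    exact this
  have hcomp : IsCompact (Set.uIcc (-Real.pi) (0 : ℝ)) := isCompact_uIcc
  have huc := hcomp.uniformContinuousOn_of_continuous hc
  rw [Metric.uniformContinuousOn_iff] at huc
  obtain ⟨δ, hδ, hδ2⟩ := huc ε hε
  have hpi := Real.pi_pos
  refine ⟨δ, hδ, fun u v hu1 hu2 hv1 hv2 huv => ?_⟩
  rw [Set.uIcc_of_le (by linarith)] at hδ2
  have h1 := hδ2 v ⟨hv1, hv2⟩ u ⟨hu1, hu2⟩ (by
    rw [Real.dist_eq, abs_sub_comm]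
    exact huv)
  rw [Real.dist_eq] at h1
  have h2 : (∫ φ in (-Real.pi)..v, G φ) - (∫ φ in (-Real.pi)..u, G φ) = ∫ φ in u..v, G φ := by
    rw [intervalIntegral.integral_interval_sub_left (g_int _ _) (g_int _ _)]
  rw [h2] at h1
  exact h1.le

lemma log_norm (N j : ℕ) (hN : 0 < N) : Real.log ‖1 - rt N ^ (2 * j)‖ = G (th N j) := by
  have hN0 : (N : ℝ) ≠ 0 := by positivity
  have hNc : (N : ℂ) ≠ 0 := by exact_mod_cast hN.ne'
  have h1 : rt N ^ (2 * j) = Complex.exp (((2 * Real.pi * j / N : ℝ) : ℂ) * Complex.I) := by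
    unfold rt
    rw [← Complex.exp_nat_mul]
    congr 1
    push_cast
    field_simp
  have h2 : ‖1 - rt N ^ (2 * j)‖ ^ 2 = 2 - 2 * Real.cos (2 * Real.pi * j / N) := by
    rw [h1, Complex.sq_norm, Complex.normSq_apply]
    simp only [Complex.sub_re, Complex.one_re, Complex.sub_im, Complex.one_im,
      Complex.exp_ofReal_mul_I_re, Complex.exp_ofReal_mul_I_im]
    nlinarith [Real.sin_sq_add_cos_sq (2 * Real.pi * j / N)]
  unfold G th
  rw [Real.cos_sub_two_pi, ← h2, Real.log_pow]
  push_cast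
  ring

theorem rs2 : S_rs2 := by
  intro ε hε
  have hpi := Real.pi_pos
  obtain ⟨δ, hδ, hsh⟩ := short ε hε
  obtain ⟨N1, hN1⟩ := exists_nat_gt (2 * Real.pi / δ)
  refine ⟨max N1 4, ?_⟩
  intro N hN n hn hph
  have hN1' : N1 ≤ N := le_trans (le_max_left _ _) hN
  have hN4 : 4 ≤ N := le_trans (le_max_right _ _) hN
  have hNpos : 0 < N := by omega
  have hN0 : (0 : ℝ) < N := by exact_mod_cast hNpos
  have hN4' : (4 : ℝ) ≤ N := by exact_mod_cast hN4
  have hstep : 2 * Real.pi / N < δ := by
    have h1 : 2 * Real.pi / δ < N := lt_of_lt_of_le hN1 (by exact_mod_cast hN1')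
    rw [div_lt_iff₀ hδ] at h1
    rw [div_lt_iff₀ hN0]
    linarith
  have hstep2 : Real.pi / N < δ := by
    refine lt_of_le_of_lt ?_ hstep
    gcongr
    linarith
  have hq : Real.pi / N ≤ Real.pi / 4 := by gcongr
  have hq0 : 0 < Real.pi / N := by positivity
  have hn1 : -Real.pi ≤ th N n := by
    rw [ph_eq] at hph
    linarith
  have hn0 : th N n ≤ 0 := (th_neg N n hn).le
  have hlast : N - 1 < N := by omega
  have e0 : N - 1 + 1 = N := by omega
  have hs : ∑ j ∈ Ioc n (N - 1), Real.log ‖1 - rt N ^ (2 * j)‖ =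
      ∑ j ∈ Ioc n (N - 1), G (th N j) := Finset.sum_congr rfl fun j _ => log_norm N j hNpos
  rw [hs]
  have hup := upper N n hNpos hn1 (N - 1) (by omega) hlast
  have hlo := lower N n hNpos hn1 (N - 1) (by omega) hlast
  rw [e0, th_N N hNpos] at hlo
  -- the integral
  have hT : ∫ φ in (ph N n)..0, Real.log (2 - 2 * Real.cos φ) / 2 = ∫ φ in (ph N n)..0, G φ := rfl
  rw [hT]
  have hphn : ph N n ≤ 0 := by
    rw [ph_eq]
    have h1 := th_mono N (n + 1) N (by omega)
    rw [th_N N hNpos, th_succ] at h1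
    have h2 : 2 * Real.pi / N = Real.pi / N + Real.pi / N := by ring
    linarith
  have hphn1 : -Real.pi ≤ ph N n := by linarith
  have hl1 : th N (N - 1) ≤ 0 := (th_neg N (N - 1) hlast).le
  have hl2 : -Real.pi ≤ th N (N - 1) := le_trans hn1 (th_mono N n (N - 1) (by omega))
  have hl3 : th N (n + 1) ≤ 0 := by
    rw [← th_N N hNpos]
    exact th_mono N _ _ (by omega)
  have hl4 : -Real.pi ≤ th N (n + 1) := le_trans hn1 (th_mono N _ _ (by omega))
  have k1 := hsh (ph N n) (th N (n + 1)) hphn1 hphn hl4 hl3 (by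
    rw [ph_eq, th_succ]
    have : th N n + Real.pi / N - (th N n + 2 * Real.pi / N) = -(Real.pi / N) := by ring
    rw [this, abs_neg, abs_of_pos hq0]
    exact hstep2)
  have k2 := hsh (th N n) (ph N n) hn1 hn0 hphn1 hphn (by
    rw [ph_eq]
    have : th N n - (th N n + Real.pi / N) = -(Real.pi / N) := by ring
    rw [this, abs_neg, abs_of_pos hq0]
    exact hstep2)
  have k3 := hsh (th N (N - 1)) 0 hl2 hl1 (by linarith) le_rfl (by
    have h1 : th N (N - 1) = -(2 * Real.pi / N) := by
      have h2 := th_succ N (N - 1)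
      rw [e0, th_N N hNpos] at h2
      linarith
    rw [h1, sub_zero, abs_neg, abs_of_pos (by positivity)]
    exact hstep)
  have i1 : (∫ φ in (ph N n)..(th N (n + 1)), G φ) + (∫ φ in (th N (n + 1))..0, G φ) =
      ∫ φ in (ph N n)..0, G φ :=
    intervalIntegral.integral_add_adjacent_intervals (g_int _ _) (g_int _ _)
  have i2 : (∫ φ in (th N n)..(ph N n), G φ) + (∫ φ in (ph N n)..0, G φ) =
      ∫ φ in (th N n)..0, G φ :=
    intervalIntegral.integral_add_adjacent_intervals (g_int _ _) (g_int _ _)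
  have i3 : (∫ φ in (th N n)..(th N (N - 1)), G φ) + (∫ φ in (th N (N - 1))..0, G φ) =
      ∫ φ in (th N n)..0, G φ :=
    intervalIntegral.integral_add_adjacent_intervals (g_int _ _) (g_int _ _)
  rw [abs_le] at k1 k2 k3
  set S : ℝ := ∑ j ∈ Ioc n (N - 1), G (th N j) with hS
  set T : ℝ := ∫ φ in (ph N n)..0, G φ with hTT
  have m1 : |(2 * Real.pi / N) * S - T| ≤ 2 * ε := by
    rw [abs_le]
    constructor <;> linarith [k1.1, k1.2, k2.1, k2.2, k3.1, k3.2]
  have e1 : (1 / (N : ℝ)) * S - (1 / (2 * Real.pi)) * T =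
      (1 / (2 * Real.pi)) * ((2 * Real.pi / N) * S - T) := by
    field_simp
  rw [e1, abs_mul, abs_of_pos (show (0 : ℝ) < 1 / (2 * Real.pi) by positivity)]
  calc 1 / (2 * Real.pi) * |(2 * Real.pi / N) * S - T| ≤ 1 / (2 * Real.pi) * (2 * ε) :=
        mul_le_mul_of_nonneg_left m1 (by positivity)
    _ = ε / Real.pi := by field_simp
    _ ≤ ε := by
        rw [div_le_iff₀ hpi]
        nlinarith [Real.pi_gt_three]

end Pool.Agent.Q277.VC
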